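import Pool.Agent.ANO3.End.Concrete
import Pool.Agent.ANO3.Cnt.Inst
import Pool.Agent.ANO3.Tot.Void

/-!
# ANO3, module Fin: the main theorem
-/

set_option autoImplicit false

open scoped UpperHalfPlane MatrixGroups
open Set Filter Topology

namespace Pool.Agent.ANO3

open Pool.Agent.ANO Pool.Agent.ANO2 Pool.Agent.ANO3.Tree

variable {r : ℕ}

theorem surj_pow {S : Fin r → ClosedSurface} {Φ : X r 0 ≃ₜ X r 0} (hA : IsAnosovLift S Φ)
    (n : ℕ) : Surj S (Φ ^ n : X r 0 ≃ₜ X r 0) := by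
  induction n with
  | zero => exact fun g hg => ⟨g, hg, rfl⟩
  | succ n ih =>
    intro g hg
    obtain ⟨g1, hg1, e1⟩ := hA.2.2.2.1 g hg
    obtain ⟨g2, hg2, e2⟩ := ih g1 hg1
    refine ⟨g2, hg2, funext fun x => ?_⟩
    have h1 : ∀ y, (Φ ^ (n + 1) : X r 0 ≃ₜ X r 0) y = Φ ((Φ ^ n : X r 0 ≃ₜ X r 0) y) := by
      intro y
      rw [pow_succ']
      rfl
    have h2 := congrFun e2 x
    have h3 := congrFun e1 ((Φ ^ n : X r 0 ≃ₜ X r 0) x)
    simp only [Function.comp_apply] at h2 h3 ⊢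
    rw [h1, h1, h2, h3]

/-- The product of the surface maps, as a homeomorphism. -/
noncomputable def prodHomeo (S : Fin r → SurfaceMap) : X r 0 ≃ₜ X r 0 :=
  (Homeomorph.piCongrRight fun i => (S i).f).prodCongr (Homeomorph.refl _)

theorem setting_pow {S : Fin r → SurfaceMap} {Φ : X r 0 ≃ₜ X r 0}
    (hA : IsAnosovLift (surf S) Φ) {n : ℕ}
    (h : Homotopic (surf S) (prodMap S) (Φ ^ n : X r 0 ≃ₜ X r 0)) :
    Setting S (prodHomeo S) (Φ ^ n : X r 0 ≃ₜ X r 0) :=
  ⟨fun _ _ => rfl, h, surj_pow hA n⟩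

private theorem nontriv_Fin (hr : 0 < r) {V : Type} [NormedAddCommGroup V] [NormedSpace ℝ V]
    (C₀ : E r 0 ≃L[ℝ] V) : Nontrivial V := by
  have h1 : Nontrivial (E r 0) := by
    refine Module.nontrivial_of_finrank_pos (R := ℝ) ?_
    rw [ANO2.Dim.finrank_E]
    omega
  exact C₀.symm.toLinearEquiv.toEquiv.nontrivial

theorem totSelf (hr : 0 < r) {S : Fin r → SurfaceMap} {F : ∀ i, Flat (S i)}
    {T₀ T : X r 0 ≃ₜ X r 0} (h : Setting S T₀ T) : Conn.TotSelf F T := by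
  intro u s C₀ Θ w hw
  have := nontriv_Fin hr C₀
  exact Tot.total_self h C₀ Θ hw

theorem totZero (hr : 0 < r) {S : Fin r → SurfaceMap} {F : ∀ i, Flat (S i)}
    {T₀ T : X r 0 ≃ₜ X r 0} (h : Setting S T₀ T) : Conn.TotZero F T := by
  intro u s C₀ Θ w' w'' hw' hw'' hz
  have := nontriv_Fin hr C₀
  obtain ⟨i, hi⟩ := hz
  exact Tot.total_pair_zero h C₀ Θ hw' hw'' hi

theorem mainStatement : MainStatement := by
  intro r hr S hS Φ hA n hn hhom
  obtain ⟨N⟩ : Nonempty (∀ i, NormalForm (S i)) := ⟨fun i => (hS i).some⟩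
  have h := setting_pow hA hhom
  have hC := Cnt.countableNN (N := N) hn h hA
  have hN := Cnt.singleNN (N := N) hn h hA
  have hB := Cnt.hasBracket hn h hA fun i => (N i).flat
  have hU := Tot.nonempty_U (F := fun i => (N i).flat) hr h hC
  have h1 := totSelf (F := fun i => (N i).flat) hr h
  have h0 := totZero (F := fun i => (N i).flat) hr h
  obtain ⟨i₀, -⟩ : ∃ i : Fin r, i = ⟨0, hr⟩ := ⟨_, rfl⟩
  obtain ⟨v, hv, hcor, hsing⟩ := (N i₀).vertex (hU i₀)
  obtain ⟨b₀, hb₀⟩ := Flat.exists_corner (F := (N i₀).flat) hcor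
  choose w hw using fun i => Flat.exists_reg (F := (N i).flat) (hU i)
  have e : Function.update w i₀ v i₀ = v := Function.update_self ..
  refine End.concrete (F := fun i => (N i).flat) h i₀ (κ := Function.update w i₀ v)
    (b₀ := b₀) ?_ ?_ ?_ (fun i hi => ?_) hN hC hB h1 ?_
  · rw [e]
    exact hv
  · rw [e]
    exact hb₀
  · rw [e]
    exact hsing
  · rw [Function.update_of_ne hi]
    exact hw i
  · exact fun w' w'' hw' hw'' hne i => Conn.meet hr hn h hA hN h1 h0 hw' hw'' hne i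

end Pool.Agent.ANO3
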